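import Mathlib

/-!
# Linear algebra: independent slots
-/

set_option autoImplicit false

open Module

namespace Pool.Agent.N591.AF

universe t u v

variable {Λ : Type t} [Field Λ] {A : Type u} [AddCommGroup A] [Module Λ A]
  {V : Type v} [AddCommGroup V] [Module Λ V] [Module.Finite Λ V]

/-- One slot. -/
lemma slot_one (Nm : Submodule Λ A) (s : A →ₗ[Λ] V) (hs : ∀ x, s x = 0 → x ∈ Nm)
    (𝒜 : Submodule Λ A) (h𝒜 : 𝒜 ⊔ Nm = ⊤) :
    finrank Λ (A ⧸ Nm) ≤ finrank Λ (𝒜.map s) := by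
  have hsurj : Function.Surjective (Nm.mkQ ∘ₗ 𝒜.subtype) := by
    intro y
    obtain ⟨x, rfl⟩ := Submodule.mkQ_surjective Nm y
    have hx : x ∈ 𝒜 ⊔ Nm := by rw [h𝒜]; trivial
    obtain ⟨a, ha, n, hn, rfl⟩ := Submodule.mem_sup.1 hx
    refine ⟨⟨a, ha⟩, ?_⟩
    show Nm.mkQ a = Nm.mkQ (a + n)
    rw [map_add, (Submodule.Quotient.mk_eq_zero Nm).2 hn |> fun h => (h : Nm.mkQ n = 0), add_zero]
  obtain ⟨g, hg⟩ := LinearMap.exists_rightInverse_of_surjective _ (LinearMap.range_eq_top.2 hsurj)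
  have hg' : ∀ y, Nm.mkQ (g y : A) = y := fun y => LinearMap.congr_fun hg y
  let φ : (A ⧸ Nm) →ₗ[Λ] (𝒜.map s) :=
    LinearMap.codRestrict (𝒜.map s) (s ∘ₗ 𝒜.subtype ∘ₗ g)
      fun y => Submodule.mem_map_of_mem (g y).2
  refine LinearMap.finrank_le_finrank_of_injective (f := φ) ?_
  rw [injective_iff_map_eq_zero]
  intro y hy
  have h1 : s (g y : A) = 0 := congrArg Subtype.val hy
  have h2 := hs _ h1
  rw [← hg' y]
  exact (Submodule.Quotient.mk_eq_zero Nm).2 h2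

/-- Independent slots. -/
theorem slots (Nm : Submodule Λ A) (s : ℕ → A →ₗ[Λ] V) (m : ℕ)
    (hs : ∀ k ≤ m, ∀ x, s k x = 0 → x ∈ Nm)
    (hE : ∀ j ≤ m, ∃ E : V →ₗ[Λ] V, (∀ x, E (s j x) = 0) ∧
      ∀ k < j, ∃ E' : A →ₗ[Λ] A, (∀ x, E' x - x ∈ Nm) ∧ ∀ x, E (s k x) = s k (E' x)) :
    ∀ 𝒜 : ℕ → Submodule Λ A, (∀ k ≤ m, 𝒜 k ⊔ Nm = ⊤) →
      (m + 1) * finrank Λ (A ⧸ Nm) ≤
        finrank Λ (⨆ k : ℕ, ⨆ _ : k ≤ m, (𝒜 k).map (s k) : Submodule Λ V) := by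
  induction m with
  | zero =>
    intro 𝒜 h𝒜
    rw [Nat.zero_add, Nat.one_mul]
    refine (slot_one Nm (s 0) (hs 0 le_rfl) (𝒜 0) (h𝒜 0 le_rfl)).trans ?_
    exact Submodule.finrank_mono (le_iSup₂_of_le (f := fun (k : ℕ) (_ : k ≤ 0) =>
      (𝒜 k).map (s k)) 0 le_rfl le_rfl)
  | succ m ih =>
    intro 𝒜 h𝒜
    obtain ⟨E, hE0, hE1⟩ := hE (m + 1) le_rfl
    have hch : ∀ k : ℕ, ∃ E' : A →ₗ[Λ] A, k ≤ m → (∀ x, E' x - x ∈ Nm) ∧
        ∀ x, E (s k x) = s k (E' x) := by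
      intro k
      by_cases hk : k ≤ m
      · obtain ⟨E', h1, h2⟩ := hE1 k (by omega)
        exact ⟨E', fun _ => ⟨h1, h2⟩⟩
      · exact ⟨0, fun h => absurd h hk⟩
    choose E' hE' using hch
    have hih := ih (fun k hk => hs k (by omega)) (fun j hj => hE j (by omega))
      (fun k => (𝒜 k).map (E' k)) (by
        intro k hk
        rw [eq_top_iff]
        intro x _
        have hx : x ∈ 𝒜 k ⊔ Nm := by rw [h𝒜 k (by omega)]; trivial
        obtain ⟨a, ha, n, hn, rfl⟩ := Submodule.mem_sup.1 hx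
        refine Submodule.mem_sup.2 ⟨E' k a, Submodule.mem_map_of_mem ha,
          n - (E' k a - a), Nm.sub_mem hn ((hE' k hk).1 a), ?_⟩
        abel)
    set 𝒰 : Submodule Λ V := ⨆ k : ℕ, ⨆ _ : k ≤ m + 1, (𝒜 k).map (s k) with h𝒰
    have hle : ∀ k ≤ m + 1, (𝒜 k).map (s k) ≤ 𝒰 := fun k hk =>
      le_iSup₂_of_le (f := fun (k : ℕ) (_ : k ≤ m + 1) => (𝒜 k).map (s k)) k hk le_rfl
    have h1 := slot_one Nm (s (m + 1)) (hs (m + 1) le_rfl) (𝒜 (m + 1)) (h𝒜 (m + 1) le_rfl)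
    have hrn := LinearMap.finrank_range_add_finrank_ker (E.domRestrict 𝒰)
    rw [LinearMap.range_domRestrict] at hrn
    have h2 : finrank Λ ((𝒜 (m + 1)).map (s (m + 1))) ≤
        finrank Λ (LinearMap.ker (E.domRestrict 𝒰)) := by
      rw [← (Submodule.comapSubtypeEquivOfLe (hle (m + 1) le_rfl)).finrank_eq]
      refine Submodule.finrank_mono ?_
      rintro ⟨y, hy⟩ hy'
      obtain ⟨x, -, hx⟩ := (Submodule.mem_comap.1 hy' : y ∈ (𝒜 (m + 1)).map (s (m + 1)))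
      rw [LinearMap.mem_ker]
      show E y = 0
      have hx' : s (m + 1) x = y := hx
      rw [← hx']
      exact hE0 x
    have h3 : (⨆ k : ℕ, ⨆ _ : k ≤ m, ((𝒜 k).map (E' k)).map (s k) : Submodule Λ V) ≤
        𝒰.map E := by
      refine iSup₂_le fun k hk => ?_
      rintro _ ⟨_, ⟨x, hx, rfl⟩, rfl⟩
      rw [← (hE' k hk).2 x]
      exact Submodule.mem_map_of_mem (hle k (by omega) (Submodule.mem_map_of_mem hx))
    have h4 := hih.trans (Submodule.finrank_mono h3)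
    calc (m + 1 + 1) * finrank Λ (A ⧸ Nm) =
        (m + 1) * finrank Λ (A ⧸ Nm) + finrank Λ (A ⧸ Nm) := by ring
      _ ≤ finrank Λ (𝒰.map E) + finrank Λ (LinearMap.ker (E.domRestrict 𝒰)) :=
        Nat.add_le_add h4 (h1.trans h2)
      _ = _ := hrn

end Pool.Agent.N591.AF
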